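import Pool.Agent.helper55.NM.Spec2
import Pool.Agent.helper37.MA.Spec
import Pool.Agent.helper77.MC.Spec

set_option autoImplicit false

namespace Pool.Agent.helper33.NM

open Pool.Agent.NM Finset

/-- Part A in the form of Pool/Agent/helper55/NM/Spec2.lean from part A in the form of
Pool/Agent/helper37/MA/Spec.lean. -/
theorem PA_of_AAA (h : Pool.Agent.helper37.MA.AAA_stmt) : PA_stmt := by
  intro ε hε
  obtain ⟨p0, n0, h0⟩ := h ε hε
  refine ⟨p0, n0, fun n k x hn h1 h2 hx hp hq => h0 n k x hn ?_ h2 hx ?_ ?_⟩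
  · have h3 : (n : ℝ) ≤ 3 * k := by linarith
    exact_mod_cast h3
  · refine hp.trans (le_of_eq ?_)
    rw [Fintype.card_subtype]
  · refine hq.trans (le_of_eq ?_)
    rw [Fintype.card_subtype]

/-- Part C in the form of Pool/Agent/helper55/NM/Spec2.lean from part C in the form of
Pool/Agent/helper77/MC/Spec.lean. -/
theorem PC_of_CC (h : Pool.Agent.helper77.MC.CC_stmt) : PC_stmt := by
  intro ε hε
  obtain ⟨n0, h0⟩ := h ε hε
  refine ⟨n0, fun n k x hn h1 h2 hx hp => h0 n k x hn h1 h2 hx (le_trans (le_of_eq ?_) hp)⟩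
  congr 1

end Pool.Agent.helper33.NM
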